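import Pool.Agent.Y916.Al.Gel

/-!
# Gel'fond's conjecture in bounded degree in short windows around an algebraic number: at most `l + 2` exceptional numbers

The numbers `e^α_1, …, e^α_l` (`α_i` algebraic, linearly independent over `ℚ`) and logarithms of the algebraic numbers
`ξ + β_i` near an algebraic number `ξ`.
-/

set_option autoImplicit false

namespace Pool.Agent.Results.MP_c82530_nt.AlgebraicWindows

theorem result (l r d δ m A : ℕ) : ∃ E : ℕ, ∀ (H : ℕ) (ξ : ℂ), ((H : ℝ) + 2) ^ E ≤ ‖ξ‖ →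
    (∃ p : Polynomial ℤ, p ≠ 0 ∧ p.natDegree ≤ m ∧ (∀ j, |(p.coeff j : ℝ)| ≤ ‖ξ‖ ^ A) ∧
      Polynomial.aeval ξ p = 0) →
    ∀ α : Fin l → ℂ, (∀ i, IsAlgebraic ℚ (α i)) → LinearIndependent ℚ α →
    ∃ S : Finset ℂ, S.card ≤ l + 2 ∧ ∀ β : Fin r → ℂ, Function.Injective β → (∀ i, β i ∉ S ∧ β i ≠ 0) →
      (∀ i, ∃ p : Polynomial ℤ, p ≠ 0 ∧ p.natDegree ≤ d ∧ (∀ j, |p.coeff j| ≤ (H : ℤ)) ∧
        Polynomial.aeval (β i) p = 0) →
      ∀ x : Fin r → ℂ, (∀ i, Complex.exp (x i) = ξ + β i) →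
      ∀ K : IntermediateField ℚ ℂ, FiniteDimensional ℚ K → Module.finrank ℚ K ≤ d →
      ∀ P : MvPolynomial (Fin l ⊕ Fin r) K, P ≠ 0 → P.totalDegree ≤ δ →
        MvPolynomial.aeval (Sum.elim (fun i => Complex.exp (α i)) x) P ≠ 0 := by
  obtain ⟨E, hE⟩ := Pool.Agent.Y916.Al.gel_windows r d δ l m A
  refine ⟨E, fun H ξ hξ hξp α hα hli => ?_⟩
  obtain ⟨S, hS, h⟩ := hE H ξ hξ hξp (fun i => Complex.exp (α i))
    ((Pool.Agent.H297R2.exp_algebraicIndependent α hα hli).restrictScalars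
      (algebraMap ℚ (algebraicClosure ℚ ℂ)).injective)
  exact ⟨S, hS, fun β hinj hβ hβa x hx K hK hKd P hP0 hPd =>
    h β hinj (fun i => ⟨(hβ i).1, (hβ i).2, hβa i⟩) x hx K hK hKd P hP0 hPd⟩

end Pool.Agent.Results.MP_c82530_nt.AlgebraicWindows
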