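import Pool.Agent.Y787.CStrat

/-!
# Relations of bounded degree between arbitrary numbers and tuples of linear forms in logarithms

Let `x_1, ..., x_n` be arbitrary complex numbers, and let `W` be a space of dimension `N` over the
field `ℚ̄` of algebraic numbers which consists of linear forms, with algebraic coefficients, in `1`
and logarithms of algebraic numbers.  Consider the tuples `y ∈ W ^ m` such that `(x, y)` satisfies a
nontrivial polynomial relation of degree at most `D` over `ℚ̄`, while `x` together with any `s`
independent linear combinations of the `y_i` satisfies none.  They lie in an algebraic subset of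
`W ^ m` of dimension at most

`(m - 1 - s) N + m (m - 1) + binom(D + n + m, n + m) - 1`.

The second part counts the tuples of logarithms with these properties.

For `x_i = e ^ α_i` with algebraic numbers `α_i`, linearly independent over `ℚ`, this concerns the
conjecture of Gel'fond: the tuples of logarithms `y` for which `(x, y)` satisfies a relation.  By the
theorem of Lindemann and Weierstrass the second condition is automatic for `s = 0`.

The case `n = 0`, `s = 1` is the starting result `MP_d171e3_nt.DependenceInCodimension`; new is the
reduction of a relation of minimal degree to several linear combinations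
(`Pool.Agent.Y787.HS.Strat`).
-/

set_option autoImplicit false

namespace Pool.Agent.Results.MP_c82530_nt.BoundedDegreeStrata

/-- The space of all linear combinations, with algebraic coefficients, of `1` and of logarithms of
algebraic numbers. -/
noncomputable def LogForms : Submodule (algebraicClosure ℚ ℂ) ℂ :=
  Submodule.span (algebraicClosure ℚ ℂ) ({1} ∪ {z : ℂ | IsAlgebraic ℚ (Complex.exp z)})

/-- The numbers `z i` satisfy a nontrivial polynomial relation of total degree at most `D` with
algebraic coefficients. -/
def HasRelation (D : ℕ) {σ : Type} (z : σ → ℂ) : Prop :=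
  ∃ f : MvPolynomial σ (algebraicClosure ℚ ℂ), f ≠ 0 ∧ f.totalDegree ≤ D ∧
    MvPolynomial.aeval z f = 0

/-- The numbers `x i`, `y j` together satisfy a nontrivial relation of degree at most `D`, but the
`x i` together with `s` linear combinations of the `y j` with linearly independent algebraic
coefficient vectors never do. -/
def InStratum (D s : ℕ) {n m : ℕ} (x : Fin n → ℂ) (y : Fin m → ℂ) : Prop :=
  HasRelation D (Sum.elim x y) ∧
    ∀ u : Fin s → Fin m → algebraicClosure ℚ ℂ, LinearIndependent (algebraicClosure ℚ ℂ) u →
      ¬ HasRelation D (Sum.elim x fun k => ∑ j, (u k j : ℂ) * y j)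

/-- **Main result.** -/
theorem result (n m s D : ℕ) (hs : s < m) (x : Fin n → ℂ) :
    (∀ (W : Submodule (algebraicClosure ℚ ℂ) ℂ) [FiniteDimensional (algebraicClosure ℚ ℂ) W],
      W ≤ LogForms →
      ∀ φ : Fin (m * (m - 1) + (m - 1 - s) * Module.finrank (algebraicClosure ℚ ℂ) W +
          (D + (n + m)).choose (n + m)) →
        ((Fin m → W) →ₗ[algebraicClosure ℚ ℂ] algebraicClosure ℚ ℂ),
      ∃ P : MvPolynomial (Fin (m * (m - 1) +
          (m - 1 - s) * Module.finrank (algebraicClosure ℚ ℂ) W +
          (D + (n + m)).choose (n + m))) (algebraicClosure ℚ ℂ), P ≠ 0 ∧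
        ∀ y : Fin m → W, InStratum D s x (fun i => (y i : ℂ)) →
          MvPolynomial.eval (fun k => φ k y) P = 0) ∧
    ∀ (N : ℕ) (l : Fin N → ℂ), (∀ j, IsAlgebraic ℚ (Complex.exp (l j))) →
      LinearIndependent ℚ l →
      ∃ κ : ℕ, ∀ H : ℕ, 1 ≤ H →
        Set.ncard {A : Fin m → Fin N → ℤ | (∀ i j, |A i j| ≤ H) ∧
          InStratum D s x (fun i => ∑ j, (A i j : ℂ) * l j)} ≤
        κ * H ^ (m * (m - 1) + (m - 1 - s) * N + (D + (n + m)).choose (n + m) - 1) :=
  ⟨fun W _ hW φ => Pool.Agent.Y787.stratC_dim hs x W hW φ,
    fun _ l halg hli => Pool.Agent.Y787.stratC_count hs x l halg hli⟩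

end Pool.Agent.Results.MP_c82530_nt.BoundedDegreeStrata
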