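import Pool.Agent.Y916.Al.Gel

/-!
# Gel'fond's conjecture in bounded degree for almost all tuples of integers of a number field
-/

set_option autoImplicit false

namespace Pool.Agent.Results.MP_c82530_nt.NumberFieldTuples

/-- the element of the lattice `ℤ ω_0 + … + ℤ ω_m` with coordinates `n` -/
noncomputable def num {m : ℕ} (ω : Fin (m + 1) → ℂ) (n : Fin (m + 1) → ℤ) : ℂ := ∑ j, (n j : ℂ) * ω j

/-- For some choice of the logarithms `x_(i,s)` of the `k r` numbers `β_i + θ_s`, `β_i` the element with coordinates `n i`,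
some nonzero polynomial of total degree at most `δ` over a number field of degree at most `d` vanishes at the numbers
`e^α_1, …, e^α_l` and `x_(i,s)`. -/
def Related {k l m r : ℕ} (δ d : ℕ) (α : Fin l → ℂ) (ω : Fin (m + 1) → ℂ) (θ : Fin r → ℂ)
    (n : Fin k → Fin (m + 1) → ℤ) : Prop :=
  ∃ x : Fin k × Fin r → ℂ, (∀ p, Complex.exp (x p) = num ω (n p.1) + θ p.2) ∧
    ∃ K : IntermediateField ℚ ℂ, FiniteDimensional ℚ K ∧ Module.finrank ℚ K ≤ d ∧
      ∃ P : MvPolynomial (Fin l ⊕ Fin k × Fin r) K, P ≠ 0 ∧ P.totalDegree ≤ δ ∧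
        MvPolynomial.aeval (Sum.elim (fun i => Complex.exp (α i)) x) P = 0

/-- For algebraic numbers `ω_0 ≠ 0, ω_1, …, ω_m` (for instance an integral basis of a number field), distinct algebraic
numbers `θ_1, …, θ_r` and all `k`, `l`, `δ`, `d` there are `c > 0` and `C` such that for all `ℚ`-linearly independent
algebraic numbers `α_1, …, α_l` and every `T ≥ 1`, at most `C T^(k (m + 1) - c)` of the `k`-tuples of elements of the
lattice with coordinates in `[-T, T]` are related. -/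
theorem result {m r : ℕ} (ω : Fin (m + 1) → ℂ) (hω : ∀ j, IsAlgebraic ℚ (ω j)) (hω0 : ω 0 ≠ 0)
    (θ : Fin r → ℂ) (hθ : ∀ j, IsAlgebraic ℚ (θ j)) (hinj : Function.Injective θ) (k l δ d : ℕ) :
    ∃ c : ℝ, 0 < c ∧ ∃ C : ℝ, ∀ α : Fin l → ℂ, (∀ i, IsAlgebraic ℚ (α i)) → LinearIndependent ℚ α →
      ∀ T : ℕ, 1 ≤ T →
      {n : Fin k → Fin (m + 1) → ℤ | (∀ i j, |n i j| ≤ T) ∧ Related δ d α ω θ n}.Finite ∧
      ({n : Fin k → Fin (m + 1) → ℤ | (∀ i j, |n i j| ≤ T) ∧ Related δ d α ω θ n}.ncard : ℝ) ≤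
        C * (T : ℝ) ^ (((k * (m + 1) : ℕ) : ℝ) - c) := by
  obtain ⟨c, hc, C, h⟩ := Pool.Agent.Y916.Al.gel_tuples ω hω hω0 θ hθ hinj k l δ d
  exact ⟨c, hc, C, fun α hα hli => h (fun i => Complex.exp (α i))
    ((Pool.Agent.H297R2.exp_algebraicIndependent α hα hli).restrictScalars
      (algebraMap ℚ (algebraicClosure ℚ ℂ)).injective)⟩

end Pool.Agent.Results.MP_c82530_nt.NumberFieldTuples
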