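import Mathlib
import Pool.Agent.Y918.RP.Gel

/-!
# Gel'fond's conjecture in bounded degree for random elements of groups of logarithms

Let `α_1, …, α_l` be algebraic numbers which are linearly independent over `ℚ`.  For every `j < n` let
`λ_{j,1}, …, λ_{j,k}` be logarithms of algebraic numbers which are linearly independent over `ℚ` (for
different `j` they may be the same), and let `ζ_j` be an arbitrary complex number, for instance `0`.
For every degree bound `D` there are `k₀`, `C` and `δ > 0`, which depend only on `l`, `n` and `D`, such
that for all `k ≥ k₀` and every finite set `A` of rational numbers the numbers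

  `e^{α_1}, …, e^{α_l}, ζ_1 + ∑_i a_{1,i} λ_{1,i}, …, ζ_n + ∑_i a_{n,i} λ_{n,i}`

satisfy no nonzero polynomial relation with algebraic coefficients of degree at most `D` in each
variable, for all but `C |A|^(n k - δ k)` of the `|A|^(n k)` matrices `(a_{j,i})` with entries in `A`.

For `ζ_j = 0` and `A = {0, 1}` the sums are logarithms of the products over subsets of
`{β_{j,1}, …, β_{j,k}}`, where `β_{j,i} = exp λ_{j,i}` are algebraic numbers, and all but
`C 2^(n k - δ k)` of the `2^(n k)` tuples of subsets are good.

The proof.  By Baker's theorem the logarithms are linearly independent over the field of the algebraic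
numbers.  The space `W` generated by the monomials in the exponentials and in the sums which have been
treated before has bounded dimension.  A grid `x + ∑_g s_g`, `s_g ∈ {0, w_{g,1}, …, w_{g,B}}`, where
the `B` directions of each of the `G` groups are linearly independent, contains a number which
satisfies no relation of degree at most `D` over `W`, if `G` and `B` are large
(`Pool.Agent.Y918.QC.cubeQ`).  The rational
vectors `q` for which `∑ q_i λ_i` belongs to a given space of dimension `d` form a space of dimension
at most `d`, so random directions are independent up to an exponentially small probability, and an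
iterated Cauchy-Schwarz inequality shows that a set without such grids is exponentially small
(`Pool.Agent.Y918.RP.stepA`, `Pool.Agent.Y918.RP.processF`).  Relations between the exponentials are
excluded by the Lindemann-Weierstrass theorem.
-/

set_option autoImplicit false

namespace Pool.Agent.Results.MP_c82530_nt.RandomLogarithms

/-- The numbers `x_i` satisfy no nonzero polynomial relation with algebraic coefficients of degree
at most `D` in each of them. -/
def NoRelation (D : ℕ) {ι : Type} (x : ι → ℂ) : Prop :=
  ∀ p : MvPolynomial ι (algebraicClosure ℚ ℂ), (∀ i, p.degreeOf i ≤ D) →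
    MvPolynomial.aeval x p = 0 → p = 0

open Classical in
/-- **Main result.** -/
theorem result (l n D : ℕ) : ∃ (k₀ C : ℕ) (δ : ℝ), 0 < δ ∧ ∀ k ≥ k₀, ∀ A : Finset ℚ, A.Nonempty →
    ∀ α : Fin l → ℂ, (∀ i, IsAlgebraic ℚ (α i)) → LinearIndependent ℚ α →
    ∀ lam : Fin n → Fin k → ℂ, (∀ j i, IsAlgebraic ℚ (Complex.exp (lam j i))) →
    (∀ j, LinearIndependent ℚ (lam j)) → ∀ ζ : Fin n → ℂ,
    (((Fintype.piFinset fun _ : Fin n => Fintype.piFinset fun _ : Fin k => A).filter
      (fun a : Fin n → Fin k → ℚ => ¬ NoRelation D (Sum.elim (fun i => Complex.exp (α i))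
        (fun j => ζ j + ∑ i : Fin k, (a j i : ℂ) * lam j i)))).card : ℝ) ≤
      C * (A.card : ℝ) ^ ((n * k : ℝ) - δ * k) := by
  obtain ⟨k₀, C, δ, hδ, _, h⟩ := Pool.Agent.Y918.RP.tuplesI D n ((D + 1) ^ l)
  refine ⟨k₀, C, δ, hδ, fun k hk A hA α hα hli lam halg hlam ζ => ?_⟩
  obtain ⟨hf, hr⟩ := Pool.Agent.Y918.RP.expSpan_finite D α
  refine le_trans ?_ (h k hk A hA _ hf hr (fun j p => ζ j + ∑ i : Fin k, (p i : ℂ) * lam j i)
    (fun j => Pool.Agent.Y918.RP.fine_li
      (Pool.Agent.Y918.RP.li_QB_of_logs (halg j) (hlam j)) (ζ j)))
  apply Nat.cast_le.2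
  apply Finset.card_le_card
  intro a ha
  rw [Finset.mem_filter] at ha ⊢
  exact ⟨ha.1, fun hI => ha.2 fun p hdeg h0 =>
    Pool.Agent.Y918.RP.no_relation_exp α hα hli _ hI p hdeg h0⟩

end Pool.Agent.Results.MP_c82530_nt.RandomLogarithms
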